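import Pool.Agent.W594.AN.Spectral

set_option autoImplicit false

/-!
# Circular annuli are determined by their Dirichlet spectrum

1. A planar domain with smooth boundary which has `n` holes and the area, the perimeter and the
   total squared curvature of a disc of radius `R` with `n` disjoint circular holes of radius `r`
   is itself a disc of radius `R` with `n` disjoint circular holes of radius `r`.
2. By the heat expansion, the same is true for every planar domain with smooth boundary which is
   isospectral to a disc with `n` equal circular holes.
3. By the obstacle placement theorem, every circular annulus (concentric or eccentric) is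
   determined up to congruence by its Dirichlet spectrum among all planar domains with smooth
   boundary.

The main new ingredient is `ClosedCurve.bending_area`: a closed curve of turning number one, of
length `L` and enclosed area `A`, satisfies `L³ ∫ κ² ≥ 12 π² L² - 32 π³ A`. It holds because the
product of four consecutive integers is nonnegative.
-/

namespace Pool.Agent.Results.MP_5b0138_an.CircularAnnuli

open Pool.Agent.W594.AN Metric Real

theorem result :
    (∀ (D : SmoothDomain) (n : ℕ) (R r : ℝ), 0 < r → 0 < R → D.holes = n →
      D.area = π * (R ^ 2 - n * r ^ 2) → D.perimeter = 2 * π * (R + n * r) →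
      D.bending = 2 * π * (1 / R + n / r) → IsPerforatedDisc D.Ω n R r) ∧
    (HeatExpansion → ∀ (Ω : Set ℂ) (n : ℕ) (R r : ℝ), 0 < r → 0 < R → IsPerforatedDisc Ω n R r →
      ∀ D : SmoothDomain, Isospectral Ω D.Ω → IsPerforatedDisc D.Ω n R r) ∧
    (HeatExpansion → ObstacleMonotonicity → ∀ (z w : ℂ) (R r : ℝ), 0 < r → dist z w + r < R →
      ∀ D : SmoothDomain, Isospectral (ball z R \ closedBall w r) D.Ω →
        ∃ φ : ℂ ≃ᵢ ℂ, φ '' (ball z R \ closedBall w r) = D.Ω) :=
  ⟨fun D _ _ _ hr hR h1 h2 h3 h4 => perforated_of_values D hr hR h1 h2 h3 h4,
    fun hheat _ _ _ _ hr hR hΩ D hiso => perforated_of_isospectral hheat hr hR hΩ D hiso,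
    fun hheat hobs _ _ _ _ hr hd D hiso => annulus_of_isospectral hheat hobs hr hd D hiso⟩

end Pool.Agent.Results.MP_5b0138_an.CircularAnnuli
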