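import Pool.Agent.W780.PG.Final2

set_option autoImplicit false

/-!
# Convex polygons with generic angles and transplantation

Let `P` be a convex polygon none of whose angles is a rational multiple of `π` and whose angles have
pairwise irrational ratios, and let `Q` be any convex polygon. If there are injective
transplantations from `P` to `Q` and from `Q` to `P` which respect the Dirichlet condition, then `P`
and `Q` are congruent.
-/

namespace Pool.Agent.Results.MP_5b0138_an.GenericConvexPolygons

open Pool.Agent.W780 Pool.Agent.W780.PG

theorem result {n m : ℕ} {p : Fin (n + 3) → ℂ} {q : Fin (m + 3) → ℂ}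
    (hp : IsConvexPolygon p) (hq : IsConvexPolygon q) (hgen : GenericAngles p)
    (U : TR.Transplantation (region p) (region q)) (V : TR.Transplantation (region q) (region p))
    (hU : U.RespectsDirichlet) (hV : V.RespectsDirichlet) (iU : IsInjective U)
    (iV : IsInjective V) : ∃ ψ : ℂ ≃ᵢ ℂ, ψ '' region q = region p :=
  fin2 hp hq hgen U V hU hV iU iV

end Pool.Agent.Results.MP_5b0138_an.GenericConvexPolygons
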