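import Pool.Agent.W703.GP.Fin4

/-! There is an open set of full measure in the space of convex `N`-gons such that finitely many
Dirichlet eigenvalues of a polygon in it determine the polygon, up to finitely many possibilities,
among all convex polygons with at most `N` sides. -/

open Set MeasureTheory
open Pool.Agent.W780.PG (IsConvexPolygon region)
open Pool.Agent.W703.GP (Isospectral dirichletEigenvalue)

namespace Pool.Agent.Results.MP_5b0138_an.GenericFiniteness

/-- There is an open set `G` of lists of `n + 3` points of the plane, containing Lebesgue-almost
every list of the vertices of a convex polygon, such that for each `p` in `G`: `p` lists the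
vertices of a convex polygon, and there are `K` and a finite set `S` of plane domains such that
each convex polygon with at most `n + 3` vertices and the same first `K` Dirichlet eigenvalues as
`p` has exactly `n + 3` vertices, is isospectral to `p` and is congruent to a member of `S`. -/
theorem result (n : ℕ) :
    ∃ G : Set (Fin (n + 3) → ℂ), IsOpen G ∧ volume ({p | IsConvexPolygon p} \ G) = 0 ∧
      ∀ p ∈ G, IsConvexPolygon p ∧ ∃ (K : ℕ) (S : Set (Set ℂ)), S.Finite ∧
        ∀ m ≤ n, ∀ q : Fin (m + 3) → ℂ, IsConvexPolygon q →
          (∀ k, 1 ≤ k → k ≤ K →
            dirichletEigenvalue (region p) k = dirichletEigenvalue (region q) k) →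
          m = n ∧ Isospectral (region p) (region q) ∧
            ∃ Q ∈ S, ∃ φ : ℂ ≃ᵢ ℂ, φ '' Q = region q :=
  Pool.Agent.W703.GP.open_full_measure n

end Pool.Agent.Results.MP_5b0138_an.GenericFiniteness
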