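import Pool.Agent.W780.TR.Main

set_option autoImplicit false

/-!
# Isospectrality by transplantation of smooth planar domains

Every transplantation between two planar domains with smooth boundary which respects the Dirichlet
condition is a linear combination, with constant coefficients, of the pull-backs `F ↦ F ∘ ψ` by
isometries `ψ` of the plane which carry `Ω'` onto `Ω`. In particular, if there is a nonzero one, the
two domains are congruent.
-/

namespace Pool.Agent.Results.MP_5b0138_an.TransplantableSmoothDomains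

open Pool.Agent.W780.TR

theorem result {Ω Ω' : Set ℂ} (hΩ : IsSmoothDomain Ω) (hΩ' : IsSmoothDomain Ω')
    (T : Transplantation Ω Ω') (hT : T.RespectsDirichlet) :
    (∃ a : (ℂ ≃ᵢ ℂ) → ℂ, (∀ ψ ∈ T.pieces, a ψ ≠ 0 → ψ '' Ω' = Ω) ∧
      ∀ F : ℂ → ℂ, ∀ y ∈ T.D, T.act F y = ∑ ψ ∈ T.pieces, a ψ * F (ψ y)) ∧
    (T.IsNonzero → ∃ ψ ∈ T.pieces, ψ '' Ω' = Ω) :=
  ⟨structure_theorem hΩ hΩ' T hT, congruent_of_transplantation hΩ hΩ' T hT⟩

end Pool.Agent.Results.MP_5b0138_an.TransplantableSmoothDomains
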